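import Pool.Agent.Helper33.TB.Goals

/-!
Project TB (MP_74f661_nt), packet ID (helper15): three identities for averages.
-/

set_option autoImplicit false

open Finset

namespace Pool.Agent.Helper15.TB

open Pool.Agent.Helper33.TB

theorem av_add (Q : ℕ) (f g : ℤ → ℝ) : Av Q (fun t => f t + g t) = Av Q f + Av Q g := by
  unfold Av
  rw [Finset.sum_add_distrib, add_div]

theorem av_sub (Q : ℕ) (f g : ℤ → ℝ) : Av Q (fun t => f t - g t) = Av Q f - Av Q g := by
  unfold Av
  rw [Finset.sum_sub_distrib, sub_div]

theorem av_mul (Q : ℕ) (c : ℝ) (f : ℤ → ℝ) : Av Q (fun t => c * f t) = c * Av Q f := by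
  unfold Av
  rw [← Finset.mul_sum, mul_div_assoc]

theorem idd (hPER : StmtPER) : StmtID := by
  intro Q X hX τ s F V hF hV hRF hRV
  have hXper := hX.per
  have hXX : ∀ t, X t * X t = X t := by
    intro t
    rcases hX.zo t with h | h <;> rw [h] <;> norm_num
  refine ⟨?_, ?_, ?_⟩
  · -- first identity
    let g : ℤ → ℝ := fun t => -1 * (X t * V t) - 1 * (V t * F t) + τ * (X t * V t * F t)
    have hg : Per Q g := by
      intro t
      simp only [g]
      rw [hXper t, hV t, hF t]
    have h1 := hPER.shift Q g hg 1
    have h2 : Av Q (fun t => g (t + 1))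
        = Av Q (fun t => -1 * (X t * F t) - (1 - s) * (V t * F t)) := by
      congr 1
      funext t
      have e1 : V (t + 1) * F t = -1 * (X t * F t) - (1 - s) * (V t * F t) := by
        rw [hRV t]
        ring
      rw [← e1, hRF t]
      simp only [g]
      ring
    have h3 : Av Q (fun t => -1 * (X t * F t) - (1 - s) * (V t * F t))
        = -1 * Av Q (fun t => X t * F t) - (1 - s) * Av Q (fun t => V t * F t) := by
      rw [av_sub, av_mul, av_mul]
    have h4 : Av Q g = -1 * Av Q (fun t => X t * V t) - 1 * Av Q (fun t => V t * F t)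
        + τ * Av Q (fun t => X t * V t * F t) := by
      simp only [g]
      rw [av_add, av_sub, av_mul, av_mul, av_mul]
    have h5 : Av Q (fun t => (τ * X t - s) * V t * F t)
        = τ * Av Q (fun t => X t * V t * F t) - s * Av Q (fun t => V t * F t) := by
      rw [← av_mul, ← av_mul, ← av_sub]
      congr 1
      funext t
      ring
    rw [h5]
    rw [h2, h3, h4] at h1
    linarith
  · -- second identity
    let g : ℤ → ℝ := fun t => V t ^ 2
    have hg : Per Q g := by
      intro t
      simp only [g]
      rw [hV t]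
    have h1 := hPER.shift Q g hg 1
    have h2 : Av Q (fun t => g (t + 1))
        = Av Q (fun t => X t + 2 * (1 - s) * (X t * V t) + (1 - s) ^ 2 * V t ^ 2) := by
      congr 1
      funext t
      simp only [g]
      rw [hRV t]
      linear_combination hXX t
    have h3 : Av Q (fun t => X t + 2 * (1 - s) * (X t * V t) + (1 - s) ^ 2 * V t ^ 2)
        = Av Q X + 2 * (1 - s) * Av Q (fun t => X t * V t)
          + (1 - s) ^ 2 * Av Q (fun t => V t ^ 2) := by
      rw [av_add, av_add, av_mul, av_mul]
    rw [h2, h3] at h1
    simp only [g] at h1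
    linarith
  · -- third identity
    let g : ℤ → ℝ := fun t => X t + 2 * (1 - τ) * (X t * F t) + F t ^ 2
      - τ * (2 - τ) * (X t * F t ^ 2)
    have hg : Per Q g := by
      intro t
      simp only [g]
      rw [hXper t, hF t]
    have h1 := hPER.shift Q g hg 1
    have h2 : Av Q (fun t => g (t + 1)) = Av Q (fun t => F t ^ 2) := by
      congr 1
      funext t
      simp only [g]
      rw [hRF t]
      linear_combination (-1 + 2 * τ * F (t + 1) - τ ^ 2 * F (t + 1) ^ 2) * hXX (t + 1)
    have h3 : Av Q g = Av Q X + 2 * (1 - τ) * Av Q (fun t => X t * F t)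
          + Av Q (fun t => F t ^ 2) - τ * (2 - τ) * Av Q (fun t => X t * F t ^ 2) := by
      simp only [g]
      rw [av_sub, av_add, av_add, av_mul, av_mul]
    rw [h2, h3] at h1
    linarith

end Pool.Agent.Helper15.TB
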